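import Pool.Agent.Lib.MP_35679e_nt.Gauss

set_option autoImplicit false

namespace Pool.Agent.Lib.MP_35679e_nt

open Finset Complex MeasureTheory

/-- Index set: triples `(q, a, b)` with `q ≤ Q` odd, `a < q` coprime to `q`, and `b < q`. -/
def idx (Q : ℕ) : Finset (Σ _ : ℕ, ℕ × ℕ) :=
  ((range (Q + 1)).filter Odd).sigma fun q => ((range q).filter (Nat.Coprime q)) ×ˢ range q

theorem card_idx (Q : ℕ) (hQ : 1 ≤ Q) : (Q : ℝ) ^ 3 / 512 ≤ (idx Q).card := by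
  refine (sum_totient_ge Q hQ).trans (le_of_eq ?_)
  rw [idx, Finset.card_sigma]
  push_cast
  refine Finset.sum_congr rfl fun q _ => ?_
  rw [Finset.card_product, Finset.card_range]
  push_cast
  rfl

theorem mem_idx {Q : ℕ} {t : Σ _ : ℕ, ℕ × ℕ} (ht : t ∈ idx Q) :
    t.1 ≤ Q ∧ Odd t.1 ∧ t.2.1 < t.1 ∧ Nat.Coprime t.1 t.2.1 ∧ t.2.2 < t.1 := by
  simp only [idx, Finset.mem_sigma, Finset.mem_filter, Finset.mem_range, Finset.mem_product] at ht
  exact ⟨by omega, ht.1.2, ht.2.1.1, ht.2.1.2, ht.2.2⟩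

/-- Lower corner of the box attached to a triple. -/
noncomputable def lo (t : Σ _ : ℕ, ℕ × ℕ) : Fin 2 → ℝ :=
  ![(t.2.2 : ℝ) / t.1, (t.2.1 : ℝ) / t.1]

/-- Side lengths of the boxes. -/
noncomputable def len (N : ℕ) : Fin 2 → ℝ := ![1 / (64 * (N : ℝ)), 1 / (64 * (N : ℝ) ^ 2)]

/-- The box attached to a triple. -/
def box (N : ℕ) (t : Σ _ : ℕ, ℕ × ℕ) : Set (Fin 2 → ℝ) :=
  Set.pi Set.univ fun i => Set.Ico (lo t i) (lo t i + len N i)

theorem mem_box {N : ℕ} {t : Σ _ : ℕ, ℕ × ℕ} {α : Fin 2 → ℝ} (h : α ∈ box N t) :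
    ((t.2.2 : ℝ) / t.1 ≤ α 0 ∧ α 0 < (t.2.2 : ℝ) / t.1 + 1 / (64 * (N : ℝ))) ∧
    ((t.2.1 : ℝ) / t.1 ≤ α 1 ∧ α 1 < (t.2.1 : ℝ) / t.1 + 1 / (64 * (N : ℝ) ^ 2)) := by
  have h0 := h 0 (Set.mem_univ _)
  have h1 := h 1 (Set.mem_univ _)
  simp only [lo, len, Set.mem_Ico, Matrix.cons_val_zero, Matrix.cons_val_one] at h0 h1
  exact ⟨h0, h1⟩

theorem measurableSet_box (N : ℕ) (t : Σ _ : ℕ, ℕ × ℕ) : MeasurableSet (box N t) :=
  MeasurableSet.univ_pi fun _ => measurableSet_Ico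

theorem volume_box_ne_top (N : ℕ) (t : Σ _ : ℕ, ℕ × ℕ) : volume (box N t) ≠ ⊤ := by
  rw [box, Real.volume_pi_Ico]
  exact ENNReal.prod_ne_top fun _ _ => ENNReal.ofReal_ne_top

theorem volume_box (N : ℕ) (t : Σ _ : ℕ, ℕ × ℕ) :
    volume.real (box N t) = 1 / (4096 * (N : ℝ) ^ 3) := by
  rw [Measure.real, box, Real.volume_pi_Ico_toReal]
  · simp only [add_sub_cancel_left, Fin.prod_univ_two, len, Matrix.cons_val_zero,
      Matrix.cons_val_one]
    rw [div_mul_div_comm]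
    congr 1 <;> ring
  · intro i
    have : 0 ≤ len N i := by
      fin_cases i <;> simp [len]
    simpa using this

theorem nat_eq_of_close {x y : ℕ} (h1 : (x : ℝ) < y + 1) (h2 : (y : ℝ) < x + 1) : x = y := by
  have a : x < y + 1 := by exact_mod_cast h1
  have b : y < x + 1 := by exact_mod_cast h2
  omega

theorem box_disjoint (Q N : ℕ) (hN : Q ≤ N) :
    Set.PairwiseDisjoint (↑(idx Q) : Set (Σ _ : ℕ, ℕ × ℕ)) (box N) := by
  intro t ht t' ht' hne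
  rw [Function.onFun, Set.disjoint_left]
  intro α h h'
  apply hne
  obtain ⟨q, a, b⟩ := t
  obtain ⟨q', a', b'⟩ := t'
  obtain ⟨hq, hodd, ha, hcop, hb⟩ := mem_idx ht
  obtain ⟨hq', hodd', ha', hcop', hb'⟩ := mem_idx ht'
  obtain ⟨⟨h01, h02⟩, h11, h12⟩ := mem_box h
  obtain ⟨⟨h01', h02'⟩, h11', h12'⟩ := mem_box h'
  simp only at *
  have q0 : (0 : ℝ) < q := by exact_mod_cast hodd.pos
  have q0' : (0 : ℝ) < q' := by exact_mod_cast hodd'.pos
  have qN : (q : ℝ) ≤ N := by exact_mod_cast hq.trans hN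
  have qN' : (q' : ℝ) ≤ N := by exact_mod_cast hq'.trans hN
  have N0 : (0 : ℝ) < N := lt_of_lt_of_le q0 qN
  have small : 1 / (64 * (N : ℝ) ^ 2) ≤ 1 / (q * q') := by
    apply one_div_le_one_div_of_le (by positivity)
    nlinarith [mul_le_mul qN qN' q0'.le N0.le]
  have e1 : a * q' = a' * q := by
    apply nat_eq_of_close
    · have : (a : ℝ) / q < a' / q' + 1 / (q * q') := by linarith
      rw [div_add_div _ _ q0'.ne' (by positivity), div_lt_div_iff₀ q0 (by positivity)] at this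
      push_cast
      have h3 : (q * q' : ℝ) * (a * q') < (q * q') * (a' * q + 1) := by nlinarith
      exact lt_of_mul_lt_mul_left h3 (by positivity)
    · have : (a' : ℝ) / q' < a / q + 1 / (q * q') := by linarith
      rw [div_add_div _ _ q0.ne' (by positivity), div_lt_div_iff₀ q0' (by positivity)] at this
      push_cast
      have h3 : (q * q' : ℝ) * (a' * q) < (q * q') * (a * q' + 1) := by nlinarith
      exact lt_of_mul_lt_mul_left h3 (by positivity)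
  have e2 : q = q' := by
    apply Nat.dvd_antisymm
    · exact hcop.dvd_of_dvd_mul_left ⟨a', by rw [e1]; ring⟩
    · exact hcop'.dvd_of_dvd_mul_left ⟨a, by rw [← e1]; ring⟩
  subst e2
  have e3 : a = a' := Nat.eq_of_mul_eq_mul_right hodd.pos e1
  have small' : 1 / (64 * (N : ℝ)) ≤ 1 / q := by
    apply one_div_le_one_div_of_le q0
    linarith
  have e4 : b = b' := by
    apply nat_eq_of_close
    · have : (b : ℝ) / q < b' / q + 1 / q := by linarith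
      rwa [← add_div, div_lt_div_iff_of_pos_right q0] at this
    · have : (b' : ℝ) / q < b / q + 1 / q := by linarith
      rwa [← add_div, div_lt_div_iff_of_pos_right q0] at this
  rw [e3, e4]

theorem box_subset (Q N : ℕ) (hN : Q ≤ N) (t : Σ _ : ℕ, ℕ × ℕ) (ht : t ∈ idx Q) :
    box N t ⊆ Set.pi Set.univ fun _ => Set.Ico (0 : ℝ) 1 := by
  intro α h
  obtain ⟨q, a, b⟩ := t
  obtain ⟨hq, hodd, ha, hcop, hb⟩ := mem_idx ht
  obtain ⟨⟨h01, h02⟩, h11, h12⟩ := mem_box h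
  simp only at *
  have q0 : (0 : ℝ) < q := by exact_mod_cast hodd.pos
  have q1 : (1 : ℝ) ≤ q := by exact_mod_cast hodd.pos
  have qN : (q : ℝ) ≤ N := by exact_mod_cast hq.trans hN
  have small' : 1 / (64 * (N : ℝ)) ≤ 1 / q := by
    apply one_div_le_one_div_of_le q0
    linarith
  have small : 1 / (64 * (N : ℝ) ^ 2) ≤ 1 / q := by
    apply one_div_le_one_div_of_le q0
    nlinarith
  have ha1 : (a : ℝ) / q + 1 / q ≤ 1 := by
    rw [← add_div, div_le_one q0]; exact_mod_cast ha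
  have hb1 : (b : ℝ) / q + 1 / q ≤ 1 := by
    rw [← add_div, div_le_one q0]; exact_mod_cast hb
  have ha0 : (0 : ℝ) ≤ (a : ℝ) / q := by positivity
  have hb0 : (0 : ℝ) ≤ (b : ℝ) / q := by positivity
  intro i _
  fin_cases i
  · exact ⟨by simp only [Fin.zero_eta]; linarith, by simp only [Fin.zero_eta]; linarith⟩
  · exact ⟨by simp only [Fin.mk_one]; linarith, by simp only [Fin.mk_one]; linarith⟩

/-- The union of the boxes, with `Q = m ^ 2` and `N = m ^ 4`. -/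
def arcs (m : ℕ) : Set (Fin 2 → ℝ) := ⋃ t ∈ idx (m ^ 2), box (m ^ 4) t

theorem sq_le_four (m : ℕ) (hm : 1 ≤ m) : m ^ 2 ≤ m ^ 4 := Nat.pow_le_pow_right hm (by norm_num)

theorem measurableSet_arcs (m : ℕ) : MeasurableSet (arcs m) :=
  Finset.measurableSet_biUnion _ fun t _ => measurableSet_box _ t

theorem arcs_subset (m : ℕ) (hm : 1 ≤ m) :
    arcs m ⊆ Set.pi Set.univ fun _ => Set.Ico (0 : ℝ) 1 := by
  intro α h
  simp only [arcs, Set.mem_iUnion] at h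
  obtain ⟨t, ht, h⟩ := h
  exact box_subset _ _ (sq_le_four m hm) t ht h

theorem volume_arcs (m : ℕ) (hm : 1 ≤ m) :
    1 / (2097152 * (m : ℝ) ^ 6) ≤ volume.real (arcs m) := by
  have m0 : (0 : ℝ) < m := by exact_mod_cast hm
  rw [arcs, measureReal_biUnion_finset (box_disjoint _ _ (sq_le_four m hm))
    (fun t _ => measurableSet_box _ t) (fun t _ => volume_box_ne_top _ t)]
  simp_rw [volume_box]
  rw [Finset.sum_const, nsmul_eq_mul]
  have := card_idx (m ^ 2) (Nat.one_le_pow _ _ hm)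
  refine le_trans (le_of_eq ?_) (mul_le_mul_of_nonneg_right this (by positivity))
  push_cast
  field_simp
  norm_num

theorem weyl_on_arcs (m : ℕ) (hm : 10 ≤ m) (α : Fin 2 → ℝ) (h : α ∈ arcs m) :
    (m : ℝ) ^ 3 / 2 ≤ ‖∑ x ∈ Finset.Icc 1 (m ^ 4), Complex.exp (2 * Real.pi * I *
      ((∑ j : Fin 2, α j * (x : ℝ) ^ (j.val + 1) : ℝ) : ℂ))‖ := by
  simp only [arcs, Set.mem_iUnion] at h
  obtain ⟨⟨q, a, b⟩, ht, h⟩ := h
  obtain ⟨hq, hodd, ha, hcop, hb⟩ := mem_idx ht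
  obtain ⟨⟨h01, h02⟩, h11, h12⟩ := mem_box h
  simp only at *
  have m10 : (10 : ℝ) ≤ m := by exact_mod_cast hm
  have q0 : (0 : ℝ) < q := by exact_mod_cast hodd.pos
  have qm : (q : ℝ) ≤ (m : ℝ) ^ 2 := by exact_mod_cast hq
  have key := weyl_lower q hodd a b hcop (m ^ 4) (Nat.one_le_pow _ _ (by omega))
    (α 0 - b / q) (α 1 - a / q) (by linarith) (by linarith) (by linarith) (by linarith)
  have e : ∑ x ∈ Finset.Icc 1 (m ^ 4), Complex.exp (2 * Real.pi * I *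
      ((∑ j : Fin 2, α j * (x : ℝ) ^ (j.val + 1) : ℝ) : ℂ)) =
      ∑ x ∈ range (m ^ 4), Complex.exp (2 * Real.pi * I *
        (((b / q + (α 0 - b / q)) * ((x + 1 : ℕ) : ℝ) +
          (a / q + (α 1 - a / q)) * ((x + 1 : ℕ) : ℝ) ^ 2 : ℝ) : ℂ)) := by
    rw [← Finset.Ico_add_one_right_eq_Icc, Finset.sum_Ico_eq_sum_range, Nat.add_sub_cancel]
    refine Finset.sum_congr rfl fun x _ => ?_
    congr 3
    rw [Fin.sum_univ_two, add_comm 1 x]
    simp
  rw [e]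
  refine le_trans ?_ key
  have hs : Real.sqrt q ≤ m := by
    rw [Real.sqrt_le_left (by positivity)]; exact qm
  have hs0 : 0 < Real.sqrt q := Real.sqrt_pos.2 q0
  have h3 : (m : ℝ) ^ 3 ≤ ((m ^ 4 : ℕ) : ℝ) / Real.sqrt q := by
    rw [le_div_iff₀ hs0]
    push_cast
    calc (m : ℝ) ^ 3 * Real.sqrt q ≤ (m : ℝ) ^ 3 * m :=
          mul_le_mul_of_nonneg_left hs (by positivity)
      _ = (m : ℝ) ^ 4 := by ring
  have h4 : 10 * (m : ℝ) ^ 2 ≤ (m : ℝ) ^ 3 := by nlinarith [sq_nonneg (m : ℝ)]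
  nlinarith [sq_nonneg (m : ℝ)]

theorem integral_arcs (m : ℕ) (hm : 10 ≤ m) (s : ℝ) (hs : 0 ≤ s) :
    ((m : ℝ) ^ 3 / 2) ^ (2 * s) * volume.real (arcs m) ≤
      ∫ α in arcs m, ‖∑ x ∈ Finset.Icc 1 (m ^ 4), Complex.exp (2 * Real.pi * I *
        ((∑ j : Fin 2, α j * (x : ℝ) ^ (j.val + 1) : ℝ) : ℂ))‖ ^ (2 * s) := by
  have hsub : arcs m ⊆ Set.Icc (0 : Fin 2 → ℝ) 1 := by
    intro α h
    have := arcs_subset m (by omega) h
    exact ⟨fun i => (this i (Set.mem_univ _)).1, fun i => (this i (Set.mem_univ _)).2.le⟩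
  have hfin : volume (arcs m) ≠ ⊤ :=
    measure_ne_top_of_subset hsub isCompact_Icc.measure_lt_top.ne
  refine setIntegral_ge_of_const_le_real (measurableSet_arcs m) hfin ?_ ?_
  · intro α h
    exact Real.rpow_le_rpow (by positivity) (weyl_on_arcs m hm α h) (by linarith)
  · refine IntegrableOn.mono_set ?_ hsub
    refine ContinuousOn.integrableOn_compact isCompact_Icc (Continuous.continuousOn ?_)
    refine Continuous.rpow_const ?_ fun _ => Or.inr (by linarith)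
    fun_prop

theorem exists_large (s ε C : ℝ) (h1 : 2 * ε < s) (h2 : 2 * ε < 3 - s) :
    ∃ m : ℕ, 10 ≤ m ∧ C * (m : ℝ) ^ (4 * ε - 2 * s) +
      C * 2097152 * (m : ℝ) ^ (4 * ε + 2 * s - 6) < (1 / 2 : ℝ) ^ (2 * s) := by
  have t1 : Filter.Tendsto (fun m : ℕ => (m : ℝ) ^ (4 * ε - 2 * s)) Filter.atTop (nhds 0) := by
    have := (tendsto_rpow_neg_atTop (y := 2 * s - 4 * ε) (by linarith)).comp
      (tendsto_natCast_atTop_atTop (R := ℝ))
    refine this.congr fun m => ?_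
    simp only [Function.comp]
    congr 1; ring
  have t2 : Filter.Tendsto (fun m : ℕ => (m : ℝ) ^ (4 * ε + 2 * s - 6)) Filter.atTop (nhds 0) := by
    have := (tendsto_rpow_neg_atTop (y := 6 - 2 * s - 4 * ε) (by linarith)).comp
      (tendsto_natCast_atTop_atTop (R := ℝ))
    refine this.congr fun m => ?_
    simp only [Function.comp]
    congr 1; ring
  have t3 := (t1.const_mul C).add (t2.const_mul (C * 2097152))
  simp only [mul_zero, add_zero] at t3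
  have hpos : (0 : ℝ) < (1 / 2 : ℝ) ^ (2 * s) := by positivity
  obtain ⟨m, hm1, hm2⟩ := ((Filter.eventually_ge_atTop 10).and (t3.eventually_lt_const hpos)).exists
  exact ⟨m, hm1, hm2⟩

/-- The counterexample, with all definitions unfolded. -/
theorem main (s ε C : ℝ) (hε : 0 < ε) (h1 : 2 * ε < s) (h2 : 2 * ε < 3 - s) :
    ∃ N : ℕ, 1 ≤ N ∧ ∃ B : Set (Fin 2 → ℝ), MeasurableSet B ∧
      (B ⊆ Set.pi Set.univ fun _ => Set.Ico (0 : ℝ) 1) ∧
      C * ((N : ℝ) ^ ε * ((N : ℝ) ^ s * volume.real B + (N : ℝ) ^ (2 * s - 3))) <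
        ∫ α in B, ‖∑ x ∈ Finset.Icc 1 N, Complex.exp (2 * Real.pi * I *
          ((∑ j : Fin 2, α j * (x : ℝ) ^ (j.val + 1) : ℝ) : ℂ))‖ ^ (2 * s) := by
  obtain ⟨m, hm, hlt⟩ := exists_large s ε |C| h1 h2
  have m0 : (0 : ℝ) < m := by exact_mod_cast (by omega : 0 < m)
  refine ⟨m ^ 4, Nat.one_le_pow _ _ (by omega), arcs m, measurableSet_arcs m,
    arcs_subset m (by omega), lt_of_lt_of_le ?_ (integral_arcs m hm s (by linarith))⟩
  have hv := volume_arcs m (by omega)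
  set μ := volume.real (arcs m) with hμ
  have μ0 : 0 < μ := lt_of_lt_of_le (by positivity) hv
  have p4 : ∀ y : ℝ, ((m ^ 4 : ℕ) : ℝ) ^ y = (m : ℝ) ^ (4 * y) := by
    intro y
    rw [Real.rpow_mul m0.le]
    congr 1
    push_cast
    exact (Real.rpow_natCast (m : ℝ) 4).symm
  have p3 : ((m : ℝ) ^ 3 / 2) ^ (2 * s) = (1 / 2 : ℝ) ^ (2 * s) * (m : ℝ) ^ (6 * s) := by
    rw [show (m : ℝ) ^ 3 / 2 = (1 / 2) * (m : ℝ) ^ (3 : ℝ) by
      rw [show (3 : ℝ) = ((3 : ℕ) : ℝ) by norm_num, Real.rpow_natCast]; ring,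
      Real.mul_rpow (by norm_num) (by positivity), ← Real.rpow_mul m0.le]
    congr 2; ring
  rw [p4, p4, p4, p3]
  have h6 : 1 ≤ 2097152 * (m : ℝ) ^ (6 : ℝ) * μ := by
    rw [div_le_iff₀ (by positivity)] at hv
    rw [show (6 : ℝ) = ((6 : ℕ) : ℝ) by norm_num, Real.rpow_natCast]
    linarith
  have a1 : (m : ℝ) ^ (4 * ε) * (m : ℝ) ^ (4 * s) =
      (m : ℝ) ^ (4 * ε - 2 * s) * (m : ℝ) ^ (6 * s) := by
    rw [← Real.rpow_add m0, ← Real.rpow_add m0]; congr 1; ring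
  have a2 : (m : ℝ) ^ (4 * ε) * (m : ℝ) ^ (4 * (2 * s - 3)) * (m : ℝ) ^ (6 : ℝ) =
      (m : ℝ) ^ (4 * ε + 2 * s - 6) * (m : ℝ) ^ (6 * s) := by
    rw [← Real.rpow_add m0, ← Real.rpow_add m0, ← Real.rpow_add m0]; congr 1; ring
  have pos1 : 0 < (m : ℝ) ^ (4 * ε) := by positivity
  have pos2 : 0 < (m : ℝ) ^ (4 * (2 * s - 3)) := by positivity
  have pos3 : 0 < (m : ℝ) ^ (6 * s) := by positivity
  have pos4 : 0 < (m : ℝ) ^ (4 * s) := by positivity
  calc C * ((m : ℝ) ^ (4 * ε) * ((m : ℝ) ^ (4 * s) * μ + (m : ℝ) ^ (4 * (2 * s - 3))))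
      ≤ |C| * ((m : ℝ) ^ (4 * ε) * ((m : ℝ) ^ (4 * s) * μ + (m : ℝ) ^ (4 * (2 * s - 3)))) :=
        mul_le_mul_of_nonneg_right (le_abs_self C) (by positivity)
    _ ≤ |C| * ((m : ℝ) ^ (4 * ε) * ((m : ℝ) ^ (4 * s) * μ +
          (m : ℝ) ^ (4 * (2 * s - 3)) * (2097152 * (m : ℝ) ^ (6 : ℝ) * μ))) := by
        gcongr
        exact le_mul_of_one_le_right pos2.le h6
    _ = (|C| * ((m : ℝ) ^ (4 * ε) * (m : ℝ) ^ (4 * s)) + |C| * 2097152 *
          ((m : ℝ) ^ (4 * ε) * (m : ℝ) ^ (4 * (2 * s - 3)) * (m : ℝ) ^ (6 : ℝ))) * μ := by ring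
    _ = (|C| * (m : ℝ) ^ (4 * ε - 2 * s) + |C| * 2097152 * (m : ℝ) ^ (4 * ε + 2 * s - 6)) *
          (m : ℝ) ^ (6 * s) * μ := by rw [a1, a2]; ring
    _ < (1 / 2 : ℝ) ^ (2 * s) * (m : ℝ) ^ (6 * s) * μ := by gcongr

end Pool.Agent.Lib.MP_35679e_nt
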