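import Mathlib

set_option autoImplicit false

namespace Pool.Agent.Lib.MP_35679e_nt

open Finset Complex

/-- The quadratic Gauss sum modulo an odd `q` has squared modulus `q`. -/
theorem gauss_normSq (q : ℕ) [NeZero q] (hq : Odd q) (a b : ℕ) (ha : Nat.Coprime q a) :
    ‖∑ x : ZMod q, ZMod.stdAddChar ((a : ZMod q) * x ^ 2 + (b : ZMod q) * x)‖ ^ 2 = q := by
  set ψ : AddChar (ZMod q) ℂ := ZMod.stdAddChar with hψ
  have hprim : ψ.IsPrimitive := ZMod.isPrimitive_stdAddChar q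
  have hunit : IsUnit ((2 * a : ℕ) : ZMod q) := by
    rw [ZMod.isUnit_iff_coprime]
    refine Nat.Coprime.mul_left ?_ ha.symm
    exact Nat.coprime_two_left.2 hq
  have hconj : ∀ z : ZMod q, (starRingEnd ℂ) (ψ z) = ψ (-z) := by
    intro z
    rw [AddChar.map_neg_eq_conj]
  have key : (∑ x : ZMod q, ψ ((a : ZMod q) * x ^ 2 + (b : ZMod q) * x)) *
      (starRingEnd ℂ) (∑ x : ZMod q, ψ ((a : ZMod q) * x ^ 2 + (b : ZMod q) * x)) = q := by
    rw [map_sum, Finset.sum_mul_sum, Finset.sum_comm]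
    have h1 : ∀ y : ZMod q, ∑ x : ZMod q, ψ ((a : ZMod q) * x ^ 2 + (b : ZMod q) * x) *
        (starRingEnd ℂ) (ψ ((a : ZMod q) * y ^ 2 + (b : ZMod q) * y)) =
        ∑ h : ZMod q, ψ ((a : ZMod q) * h ^ 2 + (b : ZMod q) * h) *
          ψ (y * (((2 * a : ℕ) : ZMod q) * h)) := by
      intro y
      rw [← Equiv.sum_comp (Equiv.addLeft y)]
      refine Finset.sum_congr rfl fun h _ => ?_
      rw [hconj, ← AddChar.map_add_eq_mul, ← AddChar.map_add_eq_mul]
      congr 1
      simp only [Equiv.coe_addLeft]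
      push_cast
      ring
    simp_rw [h1]
    rw [Finset.sum_comm]
    simp_rw [← Finset.mul_sum, AddChar.sum_mulShift _ hprim]
    rw [Finset.sum_eq_single (0 : ZMod q)]
    · simp
    · intro h _ hh
      rw [if_neg]
      · simp
      · intro h0
        exact hh ((hunit.mul_right_eq_zero).1 h0)
    · simp
  rw [Complex.mul_conj, Complex.normSq_eq_norm_sq] at key
  exact_mod_cast key

theorem sum_range_zmod (q : ℕ) [NeZero q] (g : ZMod q → ℂ) (n : ℕ) :
    ∑ i ∈ range q, g ((n + i : ℕ) : ZMod q) = ∑ x : ZMod q, g x := by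
  rw [← Equiv.sum_comp (Equiv.addLeft (n : ZMod q)) g]
  refine Finset.sum_nbij' (fun i => (i : ZMod q)) (fun x => x.val) ?_ ?_ ?_ ?_ ?_
  · intro i _; exact Finset.mem_univ _
  · intro x _; exact Finset.mem_range.2 (ZMod.val_lt x)
  · intro i hi; exact ZMod.val_cast_of_lt (Finset.mem_range.1 hi)
  · intro x _; exact ZMod.natCast_zmod_val x
  · intro i _; simp

/-- Partial sums of a mean-zero bounded periodic sequence are bounded. -/
theorem partialSum_bound (q : ℕ) [NeZero q] (g : ZMod q → ℂ) (hg : ∀ x, ‖g x‖ ≤ 1) (n : ℕ) :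
    ‖∑ x ∈ range n, (g ((x + 1 : ℕ) : ZMod q) - (∑ y : ZMod q, g y) / q)‖ ≤ 2 * q := by
  have hq0 : (0 : ℝ) < q := by exact_mod_cast Nat.pos_of_ne_zero (NeZero.ne q)
  have hqc : (q : ℂ) ≠ 0 := by exact_mod_cast NeZero.ne q
  have hS : ‖(∑ y : ZMod q, g y) / q‖ ≤ 1 := by
    rw [norm_div, Complex.norm_natCast, div_le_one hq0]
    calc ‖∑ y : ZMod q, g y‖ ≤ ∑ y : ZMod q, ‖g y‖ := norm_sum_le _ _
      _ ≤ ∑ _y : ZMod q, (1 : ℝ) := Finset.sum_le_sum fun y _ => hg y
      _ = q := by simp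
  induction n using Nat.strong_induction_on with
  | _ n ih =>
    by_cases hn : n < q
    · calc _ ≤ ∑ x ∈ range n, ‖g ((x + 1 : ℕ) : ZMod q) - (∑ y : ZMod q, g y) / q‖ :=
            norm_sum_le _ _
        _ ≤ ∑ _x ∈ range n, (2 : ℝ) := by
            refine Finset.sum_le_sum fun x _ => ?_
            refine (norm_sub_le _ _).trans ?_
            linarith [hg ((x + 1 : ℕ) : ZMod q)]
        _ = 2 * n := by simp [mul_comm]
        _ ≤ 2 * q := by
            have : (n : ℝ) ≤ q := by exact_mod_cast hn.le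
            linarith
    · obtain ⟨m, rfl⟩ : ∃ m, n = m + q := ⟨n - q, by omega⟩
      rw [Finset.sum_range_add]
      have h0 : ∑ x ∈ range q, (g ((m + x + 1 : ℕ) : ZMod q) - (∑ y : ZMod q, g y) / q) = 0 := by
        rw [Finset.sum_sub_distrib]
        have := sum_range_zmod q g (m + 1)
        have h2 : ∀ x, m + x + 1 = m + 1 + x := fun x => by ring
        simp_rw [h2]
        rw [this]
        simp only [Finset.sum_const, Finset.card_range, nsmul_eq_mul]
        field_simp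
        ring
      rw [h0, add_zero]
      exact ih m (by have := Nat.pos_of_ne_zero (NeZero.ne q); omega)

/-- Summation by parts, in the crude form needed here. -/
theorem abel_bound (v w : ℕ → ℂ) (M L : ℝ) (N : ℕ) (hv : ∀ n, ‖∑ x ∈ range n, v x‖ ≤ M)
    (hw : ∀ x, ‖w x‖ ≤ 1) (hL : ∀ x < N, ‖w x - w (x + 1)‖ ≤ L) :
    ‖∑ x ∈ range N, v x * w x‖ ≤ M * (1 + N * L) := by
  have hM : 0 ≤ M := le_trans (norm_nonneg _) (hv 0)
  have h1 : ∀ n ≤ N, ‖∑ x ∈ range n, v x * w x - (∑ x ∈ range n, v x) * w n‖ ≤ M * (n * L) := by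
    intro n
    induction n with
    | zero => intro _; simp
    | succ n ih =>
      intro hn
      have e : ∑ x ∈ range (n + 1), v x * w x - (∑ x ∈ range (n + 1), v x) * w (n + 1) =
          (∑ x ∈ range n, v x * w x - (∑ x ∈ range n, v x) * w n) +
            (∑ x ∈ range (n + 1), v x) * (w n - w (n + 1)) := by
        rw [Finset.sum_range_succ, Finset.sum_range_succ]; ring
      rw [e]
      refine (norm_add_le _ _).trans ?_
      have h2 := ih (by omega)
      have h3 : ‖(∑ x ∈ range (n + 1), v x) * (w n - w (n + 1))‖ ≤ M * L := by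
        rw [norm_mul]
        exact mul_le_mul (hv _) (hL n (by omega)) (norm_nonneg _) hM
      push_cast
      nlinarith
  have h2 := h1 N le_rfl
  have h3 : ‖(∑ x ∈ range N, v x) * w N‖ ≤ M := by
    rw [norm_mul]
    calc _ ≤ M * 1 := mul_le_mul (hv _) (hw _) (norm_nonneg _) hM
      _ = M := mul_one M
  calc ‖∑ x ∈ range N, v x * w x‖
      = ‖(∑ x ∈ range N, v x * w x - (∑ x ∈ range N, v x) * w N) +
          (∑ x ∈ range N, v x) * w N‖ := by congr 1; ring
    _ ≤ _ := norm_add_le _ _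
    _ ≤ M * (1 + N * L) := by nlinarith

theorem norm_e_sub (s t : ℝ) :
    ‖Complex.exp (2 * Real.pi * I * s) - Complex.exp (2 * Real.pi * I * t)‖ ≤
      2 * Real.pi * |s - t| := by
  have e1 : Complex.exp (2 * Real.pi * I * s) - Complex.exp (2 * Real.pi * I * t) =
      Complex.exp (2 * Real.pi * I * t) *
        (Complex.exp (I * ((2 * Real.pi * (s - t) : ℝ) : ℂ)) - 1) := by
    rw [mul_sub, ← Complex.exp_add, mul_one]
    congr 2
    push_cast
    ring
  have e2 : ‖Complex.exp (2 * Real.pi * I * t)‖ = 1 := by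
    have : (2 * Real.pi * I * t : ℂ) = ((2 * Real.pi * t : ℝ) : ℂ) * I := by push_cast; ring
    rw [this, Complex.norm_exp_ofReal_mul_I]
  rw [e1, norm_mul, e2, one_mul]
  refine Real.norm_exp_I_mul_ofReal_sub_one_le.trans ?_
  rw [Real.norm_eq_abs, abs_mul, abs_of_pos (by positivity : (0 : ℝ) < 2 * Real.pi)]

theorem norm_e (t : ℝ) : ‖Complex.exp (2 * Real.pi * I * t)‖ = 1 := by
  have : (2 * Real.pi * I * t : ℂ) = ((2 * Real.pi * t : ℝ) : ℂ) * I := by push_cast; ring
  rw [this, Complex.norm_exp_ofReal_mul_I]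

/-- Lower bound for the quadratic Weyl sum near a rational point with odd denominator. -/
theorem weyl_lower (q : ℕ) (hq : Odd q) (a b : ℕ) (ha : Nat.Coprime q a) (N : ℕ) (hN : 1 ≤ N)
    (β₁ β₂ : ℝ) (h1 : 0 ≤ β₁) (h1' : β₁ ≤ 1 / (64 * N)) (h2 : 0 ≤ β₂)
    (h2' : β₂ ≤ 1 / (64 * (N : ℝ) ^ 2)) :
    4 / 5 * (N / Real.sqrt q) - 14 / 5 * q ≤
      ‖∑ x ∈ range N, Complex.exp (2 * Real.pi * I *
        (((b / q + β₁) * ((x + 1 : ℕ) : ℝ) + (a / q + β₂) * ((x + 1 : ℕ) : ℝ) ^ 2 : ℝ) : ℂ))‖ := by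
  have : NeZero q := ⟨hq.pos.ne'⟩
  have hq0 : (0 : ℝ) < q := by exact_mod_cast hq.pos
  have hqc : (q : ℂ) ≠ 0 := by exact_mod_cast NeZero.ne q
  have hN0 : (0 : ℝ) < N := by exact_mod_cast hN
  have hN1 : (1 : ℝ) ≤ N := by exact_mod_cast hN
  have hpi : Real.pi ≤ 3.2 := by linarith [Real.pi_lt_d2]
  have hpi0 := Real.pi_pos
  set g : ZMod q → ℂ := fun x => ZMod.stdAddChar ((a : ZMod q) * x ^ 2 + (b : ZMod q) * x) with hg
  set S : ℂ := ∑ y : ZMod q, g y with hS
  set θ : ℕ → ℝ := fun x => β₁ * ((x + 1 : ℕ) : ℝ) + β₂ * ((x + 1 : ℕ) : ℝ) ^ 2 with hθ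
  set w : ℕ → ℂ := fun x => Complex.exp (2 * Real.pi * I * (θ x : ℝ)) with hw
  have hgn : ∀ x, ‖g x‖ ≤ 1 := by
    intro x
    simp only [hg, ZMod.stdAddChar_apply, Circle.norm_coe, le_refl]
  have hSn : ‖S‖ = Real.sqrt q := by
    have := gauss_normSq q hq a b ha
    rw [← this, Real.sqrt_sq (norm_nonneg _)]
  have hterm : ∀ x : ℕ, Complex.exp (2 * Real.pi * I *
        (((b / q + β₁) * ((x + 1 : ℕ) : ℝ) + (a / q + β₂) * ((x + 1 : ℕ) : ℝ) ^ 2 : ℝ) : ℂ)) =
        (g ((x + 1 : ℕ) : ZMod q) - S / q) * w x + S / q * w x := by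
    intro x
    have e : g ((x + 1 : ℕ) : ZMod q) =
        Complex.exp (2 * Real.pi * I * ((a * (x + 1) ^ 2 + b * (x + 1) : ℤ) : ℂ) / q) := by
      rw [← ZMod.stdAddChar_coe]
      simp only [hg]
      congr 1
      push_cast
      ring
    rw [sub_mul, sub_add_cancel, e]
    simp only [hw, hθ]
    rw [← Complex.exp_add]
    congr 1
    push_cast
    field_simp
    ring
  simp_rw [hterm]
  rw [Finset.sum_add_distrib, ← Finset.mul_sum]
  have hA : ‖∑ x ∈ range N, (g ((x + 1 : ℕ) : ZMod q) - S / q) * w x‖ ≤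
      (2 * q) * (1 + N * (2 / (5 * N))) := by
    refine abel_bound _ w (2 * q) (2 / (5 * N)) N (partialSum_bound q g hgn) ?_ ?_
    · intro x; exact (norm_e _).le
    · intro x hx
      refine (norm_e_sub _ _).trans ?_
      have hx' : (x : ℝ) + 1 ≤ N := by exact_mod_cast hx
      have hx0 : (0 : ℝ) ≤ x := Nat.cast_nonneg x
      have e : θ x - θ (x + 1) = -(β₁ + β₂ * (2 * x + 3)) := by
        simp only [hθ]; push_cast; ring
      rw [e, abs_neg, abs_of_nonneg (by positivity)]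
      have b1 : β₂ * (2 * x + 3) ≤ 1 / (64 * (N : ℝ) ^ 2) * (3 * N) :=
        mul_le_mul h2' (by linarith) (by positivity) (by positivity)
      have b2 : 1 / (64 * (N : ℝ) ^ 2) * (3 * N) = 3 * (1 / (64 * N)) := by
        field_simp
      have b3 : β₁ + β₂ * (2 * x + 3) ≤ 4 * (1 / (64 * N)) := by linarith
      calc 2 * Real.pi * (β₁ + β₂ * (2 * x + 3)) ≤ 2 * 3.2 * (4 * (1 / (64 * N))) :=
            mul_le_mul (by linarith) b3 (by positivity) (by norm_num)
        _ = 2 / (5 * N) := by field_simp; norm_num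
  have hA' : (2 * (q : ℝ)) * (1 + N * (2 / (5 * N))) = 14 / 5 * q := by
    field_simp; ring
  have hB : 4 / 5 * (N : ℝ) ≤ ‖∑ x ∈ range N, w x‖ := by
    have e : (N : ℂ) = ∑ x ∈ range N, w x + ∑ x ∈ range N, (1 - w x) := by
      rw [← Finset.sum_add_distrib]; simp
    have b : ‖∑ x ∈ range N, (1 - w x)‖ ≤ 1 / 5 * N := by
      calc _ ≤ ∑ x ∈ range N, ‖1 - w x‖ := norm_sum_le _ _
        _ ≤ ∑ _x ∈ range N, (1 / 5 : ℝ) := by
            refine Finset.sum_le_sum fun x hx => ?_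
            have hx' : (x : ℝ) + 1 ≤ N := by exact_mod_cast Finset.mem_range.1 hx
            have hx0 : (0 : ℝ) ≤ x := Nat.cast_nonneg x
            have := norm_e_sub 0 (θ x)
            simp only [ofReal_zero, mul_zero, Complex.exp_zero, zero_sub, abs_neg] at this
            refine this.trans ?_
            have e2 : θ x = β₁ * (x + 1) + β₂ * (x + 1) ^ 2 := by simp only [hθ]; push_cast; ring
            rw [e2, abs_of_nonneg (by positivity)]
            have b1 : β₁ * (x + 1) ≤ 1 / (64 * N) * N :=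
              mul_le_mul h1' hx' (by positivity) (by positivity)
            have b2 : β₂ * (x + 1) ^ 2 ≤ 1 / (64 * (N : ℝ) ^ 2) * (N : ℝ) ^ 2 :=
              mul_le_mul h2' (by gcongr) (by positivity) (by positivity)
            have b3 : 1 / (64 * (N : ℝ)) * N = 1 / 64 := by field_simp
            have b4 : 1 / (64 * (N : ℝ) ^ 2) * (N : ℝ) ^ 2 = 1 / 64 := by field_simp
            calc 2 * Real.pi * (β₁ * (x + 1) + β₂ * (x + 1) ^ 2) ≤ 2 * 3.2 * (1 / 32) :=
                  mul_le_mul (by linarith) (by linarith) (by positivity) (by norm_num)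
              _ = 1 / 5 := by norm_num
        _ = 1 / 5 * N := by simp [mul_comm]
    have c : (N : ℝ) ≤ ‖∑ x ∈ range N, w x‖ + ‖∑ x ∈ range N, (1 - w x)‖ := by
      calc (N : ℝ) = ‖(N : ℂ)‖ := by simp
        _ = _ := by rw [e]
        _ ≤ _ := norm_add_le _ _
    linarith
  have hsq : 0 < Real.sqrt q := Real.sqrt_pos.2 hq0
  have hC : 4 / 5 * (N / Real.sqrt q) ≤ ‖S / q * ∑ x ∈ range N, w x‖ := by
    rw [norm_mul, norm_div, hSn, Complex.norm_natCast]
    have e : Real.sqrt q / q = 1 / Real.sqrt q := by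
      field_simp
      rw [Real.sq_sqrt hq0.le]
    rw [e]
    calc 4 / 5 * (N / Real.sqrt q) = 1 / Real.sqrt q * (4 / 5 * N) := by ring
      _ ≤ _ := mul_le_mul_of_nonneg_left hB (by positivity)
  have hD := norm_sub_le (∑ x ∈ range N, (g ((x + 1 : ℕ) : ZMod q) - S / q) * w x +
    S / q * ∑ x ∈ range N, w x) (∑ x ∈ range N, (g ((x + 1 : ℕ) : ZMod q) - S / q) * w x)
  rw [add_sub_cancel_left] at hD
  linarith

theorem sum_odd_ge (Q : ℕ) : (Q : ℝ) ^ 2 / 4 ≤ ∑ q ∈ (range (Q + 1)).filter Odd, (q : ℝ) := by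
  have h : ∀ k : ℕ, ∑ q ∈ (range (2 * k + 1)).filter Odd, (q : ℝ) = (k : ℝ) ^ 2 ∧
      ∑ q ∈ (range (2 * k + 2)).filter Odd, (q : ℝ) = ((k : ℝ) + 1) ^ 2 := by
    intro k
    induction k with
    | zero => simp [Finset.sum_filter, Finset.sum_range_succ]
    | succ k ih =>
      obtain ⟨_, ih2⟩ := ih
      rw [Finset.sum_filter] at ih2
      have e1 : 2 * (k + 1) + 1 = (2 * k + 2) + 1 := by ring
      have e2 : 2 * (k + 1) + 2 = (2 * k + 2) + 1 + 1 := by ring
      have o1 : ¬ Odd (2 * k + 2) := by rw [Nat.not_odd_iff_even]; exact ⟨k + 1, by ring⟩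
      have o2 : Odd (2 * k + 2 + 1) := ⟨k + 1, by ring⟩
      rw [e1, e2, Finset.sum_filter, Finset.sum_filter, Finset.sum_range_succ _ (2 * k + 2 + 1),
        Finset.sum_range_succ _ (2 * k + 2), ih2, if_neg o1, if_pos o2]
      push_cast
      constructor <;> ring
  rcases Nat.even_or_odd' Q with ⟨k, rfl | rfl⟩
  · rw [(h k).1]; push_cast; nlinarith
  · rw [show 2 * k + 1 + 1 = 2 * k + 2 by ring, (h k).2]; push_cast
    have : (0 : ℝ) ≤ k := Nat.cast_nonneg k
    nlinarith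

/-- A positive proportion of the triples `(q, a, b)` have `q` odd and coprime to `a`. -/
theorem sum_totient_ge (Q : ℕ) (hQ : 1 ≤ Q) :
    (Q : ℝ) ^ 3 / 512 ≤ ∑ q ∈ (range (Q + 1)).filter Odd, (Nat.totient q : ℝ) * q := by
  have hQ0 : (0 : ℝ) < Q := by exact_mod_cast hQ
  set O := (range (Q + 1)).filter Odd with hO
  have h1 : ∑ q ∈ O, (q : ℝ) ≤ ∑ d ∈ O, (Nat.totient d : ℝ) * (Q / d) := by
    have e1 : ∀ q ∈ O, (q : ℝ) = ∑ d ∈ O, if d ∣ q then (Nat.totient d : ℝ) else 0 := by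
      intro q hq
      rw [hO, Finset.mem_filter, Finset.mem_range] at hq
      rw [← Finset.sum_filter]
      have : O.filter (fun d => d ∣ q) = q.divisors := by
        ext d
        simp only [hO, Finset.mem_filter, Finset.mem_range, Nat.mem_divisors]
        constructor
        · rintro ⟨_, h⟩; exact ⟨h, hq.2.pos.ne'⟩
        · rintro ⟨h, _⟩
          exact ⟨⟨lt_of_le_of_lt (Nat.le_of_dvd hq.2.pos h) hq.1, Odd.of_dvd_nat hq.2 h⟩, h⟩
      rw [this]
      exact_mod_cast (Nat.sum_totient q).symm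
    rw [Finset.sum_congr rfl e1, Finset.sum_comm]
    refine Finset.sum_le_sum fun d hd => ?_
    rw [← Finset.sum_filter, Finset.sum_const, nsmul_eq_mul, mul_comm]
    refine mul_le_mul_of_nonneg_left ?_ (Nat.cast_nonneg _)
    have hsub : O.filter (fun q => d ∣ q) ⊆ (Finset.Ioc 0 Q).filter (fun q => d ∣ q) := by
      intro q hq
      simp only [hO, Finset.mem_filter, Finset.mem_range, Finset.mem_Ioc] at hq ⊢
      exact ⟨⟨hq.1.2.pos, by omega⟩, hq.2⟩
    calc ((O.filter (fun q => d ∣ q)).card : ℝ)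
        ≤ (((Finset.Ioc 0 Q).filter (fun q => d ∣ q)).card : ℝ) := by
          exact_mod_cast Finset.card_le_card hsub
      _ = ((Q / d : ℕ) : ℝ) := by rw [Nat.Ioc_filter_dvd_card_eq_div]
      _ ≤ Q / d := Nat.cast_div_le
  have h2 : ∀ d ∈ O, (Nat.totient d : ℝ) * (Q / d) ≤
      (if 8 * d ≤ Q then (Q : ℝ) else 0) + 64 / Q * ((Nat.totient d : ℝ) * d) := by
    intro d hd
    rw [hO, Finset.mem_filter] at hd
    have hd0 : (0 : ℝ) < d := by exact_mod_cast hd.2.pos
    have ht : (Nat.totient d : ℝ) ≤ d := by exact_mod_cast Nat.totient_le d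
    have ht0 : (0 : ℝ) ≤ Nat.totient d := Nat.cast_nonneg _
    split_ifs with h
    · have : (Nat.totient d : ℝ) * (Q / d) ≤ d * (Q / d) :=
        mul_le_mul_of_nonneg_right ht (by positivity)
      have e : (d : ℝ) * (Q / d) = Q := by field_simp
      have : 0 ≤ 64 / Q * ((Nat.totient d : ℝ) * d) := by positivity
      linarith
    · have h' : (Q : ℝ) ≤ 8 * d := by exact_mod_cast (not_le.1 h).le
      rw [zero_add]
      have : (Q : ℝ) / d ≤ 64 / Q * d := by
        rw [div_le_iff₀ hd0, div_mul_eq_mul_div, div_mul_eq_mul_div, le_div_iff₀ hQ0]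
        nlinarith
      calc (Nat.totient d : ℝ) * (Q / d) ≤ (Nat.totient d : ℝ) * (64 / Q * d) :=
            mul_le_mul_of_nonneg_left this ht0
        _ = _ := by ring
  have h3 : ∑ d ∈ O, (if 8 * d ≤ Q then (Q : ℝ) else 0) ≤ Q / 8 * Q := by
    rw [← Finset.sum_filter, Finset.sum_const, nsmul_eq_mul]
    refine mul_le_mul_of_nonneg_right ?_ hQ0.le
    have hsub : O.filter (fun d => 8 * d ≤ Q) ⊆ Finset.Ioc 0 (Q / 8) := by
      intro d hd
      simp only [hO, Finset.mem_filter, Finset.mem_range, Finset.mem_Ioc] at hd ⊢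
      exact ⟨hd.1.2.pos, by omega⟩
    calc ((O.filter (fun d => 8 * d ≤ Q)).card : ℝ) ≤ ((Finset.Ioc 0 (Q / 8)).card : ℝ) := by
          exact_mod_cast Finset.card_le_card hsub
      _ = ((Q / 8 : ℕ) : ℝ) := by simp
      _ ≤ Q / 8 := by exact_mod_cast Nat.cast_div_le (α := ℝ) (m := Q) (n := 8)
  have h4 := sum_odd_ge Q
  have h5 := Finset.sum_le_sum h2
  rw [Finset.sum_add_distrib, ← Finset.mul_sum] at h5
  have h6 : (Q : ℝ) ^ 2 / 8 ≤ 64 / Q * ∑ d ∈ O, (Nat.totient d : ℝ) * d := by nlinarith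
  rw [div_mul_eq_mul_div, le_div_iff₀ hQ0] at h6
  nlinarith

end Pool.Agent.Lib.MP_35679e_nt
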